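import Mathlib

set_option autoImplicit false

/-!
# Riesz Bernstein-Markov measures: definitions
-/

namespace Pool.Agent.R243.BM

open Filter Topology MeasureTheory Set
open scoped ENNReal NNReal

/-- `ℝ^d` with the Euclidean norm -/
abbrev E (d : ℕ) := EuclideanSpace ℝ (Fin d)

open Classical in
/-- The function `y ↦ exp (- Σ_j |y - x_j|^{-α})`, with the value `0` at the points `x_j`. -/
noncomputable def expPot (α : ℝ) {m d : ℕ} (x : Fin m → E d) (y : E d) : ℝ :=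
  if ∃ j, y = x j then 0 else Real.exp (-∑ j, ‖y - x j‖ ^ (-α))

/-- `μ` is a finite positive Borel measure on `K` with the (unweighted) Riesz Bernstein-Markov
property: there are `M_n > 0` with `M_n^{1/n} → 1` such that `sup_K f ≤ M_n ∫ f dμ` for every
`n ≥ 2` and every `f = exp (- Σ_{j=2}^n |· - x_j|^{-α})` with `x_2, ..., x_n ∈ K`. -/
def RieszBM (α : ℝ) {d : ℕ} (K : Set (E d)) (μ : Measure (E d)) : Prop :=
  IsFiniteMeasure μ ∧ μ Kᶜ = 0 ∧ ∃ M : ℕ → ℝ, (∀ n, 0 < M n) ∧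
    Tendsto (fun n : ℕ => (M n) ^ (1 / (n : ℝ))) atTop (𝓝 1) ∧
    ∀ n : ℕ, 2 ≤ n → ∀ x : Fin (n - 1) → E d, (∀ j, x j ∈ K) →
      ∀ y ∈ K, expPot α x y ≤ M n * ∫ z, expPot α x z ∂μ

/-- `μ` is concentrated on a countable subset of `K`, i.e. it is a sum of countably many point
masses at points of `K`. -/
def IsDiscreteOn {d : ℕ} (K : Set (E d)) (μ : Measure (E d)) : Prop :=
  ∃ S : Set (E d), S.Countable ∧ S ⊆ K ∧ μ Sᶜ = 0

/-- `K` has positive Riesz `α`-capacity: some probability measure on `K` has finite energy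
`∬ |x - y|^{-α} dν dν` (the kernel is `∞` on the diagonal). -/
def PositiveCapacity (α : ℝ) {d : ℕ} (K : Set (E d)) : Prop :=
  ∃ ν : Measure (E d), IsProbabilityMeasure ν ∧ ν Kᶜ = 0 ∧
    ∫⁻ x, ∫⁻ y, (edist x y) ^ (-α) ∂ν ∂ν < ⊤

end Pool.Agent.R243.BM
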