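import Mathlib
import Pool.Agent.R243.BM.Defs

set_option autoImplicit false

namespace Pool.Agent.R243.BM

open Filter Topology MeasureTheory Set
open scoped ENNReal NNReal

/-- `μ = Σ_i c_i δ_{z_i}` for countably many points `z_i ∈ K` and weights `c_i > 0`. -/
def IsDiscrete {d : ℕ} (K : Set (E d)) (μ : Measure (E d)) : Prop :=
  ∃ (ι : Type) (_ : Countable ι) (z : ι → E d) (c : ι → ℝ≥0∞),
    (∀ i, z i ∈ K) ∧ (∀ i, 0 < c i) ∧ μ = Measure.sum (fun i => c i • Measure.dirac (z i))

theorem isDiscrete_of_isDiscreteOn {d : ℕ} {K : Set (E d)} {μ : Measure (E d)}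
    (h : IsDiscreteOn K μ) : IsDiscrete K μ := by
  obtain ⟨S, hSc, hSK, hS⟩ := h
  set S' : Set (E d) := {x | x ∈ S ∧ 0 < μ {x}} with hS'
  have hS'c : S'.Countable := hSc.mono fun x hx => hx.1
  have hcount : Countable S' := hS'c.to_subtype
  have hnull : μ S'ᶜ = 0 := by
    have h1 : S'ᶜ ⊆ Sᶜ ∪ (S \ S') := by
      intro x hx
      by_cases hxS : x ∈ S
      · exact Or.inr ⟨hxS, hx⟩
      · exact Or.inl hxS
    have h2 : μ (S \ S') = 0 := by
      have h3 : S \ S' = ⋃ x ∈ (S \ S'), {x} := (biUnion_of_singleton _).symm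
      rw [h3]
      rw [measure_biUnion_null_iff (hSc.mono sdiff_subset)]
      intro x hx
      by_contra h0
      exact hx.2 ⟨hx.1, pos_iff_ne_zero.2 h0⟩
    exact le_antisymm ((measure_mono h1).trans ((measure_union_le _ _).trans (by rw [hS, h2, add_zero])))
      bot_le
  refine ⟨S', hcount, fun i => i.1, fun i => μ {i.1}, fun i => hSK i.2.1, fun i => i.2.2, ?_⟩
  ext A hA
  rw [Measure.sum_apply _ hA]
  have h1 : μ A = μ (A ∩ S') := by
    refine le_antisymm ?_ (measure_mono inter_subset_left)
    calc μ A ≤ μ ((A ∩ S') ∪ S'ᶜ) := by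
          apply measure_mono
          intro x hx
          by_cases hxS : x ∈ S'
          · exact Or.inl ⟨hx, hxS⟩
          · exact Or.inr hxS
      _ ≤ μ (A ∩ S') + μ S'ᶜ := measure_union_le _ _
      _ = _ := by rw [hnull, add_zero]
  have h2 : A ∩ S' = ⋃ i : S', (A ∩ {i.1}) := by
    ext x
    constructor
    · rintro ⟨hxA, hxS⟩
      exact mem_iUnion.2 ⟨⟨x, hxS⟩, hxA, rfl⟩
    · intro hx
      obtain ⟨i, hxA, hxi⟩ := mem_iUnion.1 hx
      rw [mem_singleton_iff] at hxi
      exact ⟨hxA, hxi ▸ i.2⟩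
  rw [h1, h2, measure_iUnion]
  · refine tsum_congr fun i => ?_
    by_cases hi : i.1 ∈ A
    · have : A ∩ {i.1} = {i.1} := by
        ext x
        constructor
        · exact fun hx => hx.2
        · intro hx
          rw [mem_singleton_iff] at hx
          exact ⟨hx ▸ hi, hx⟩
      rw [this]
      simp [hi, Measure.dirac_apply' _ hA]
    · have : A ∩ {i.1} = ∅ := by
        ext x
        constructor
        · rintro ⟨hx, hx'⟩
          rw [mem_singleton_iff] at hx'
          exact absurd (hx' ▸ hx) hi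
        · intro hx
          exact absurd hx (notMem_empty x)
      rw [this]
      simp [hi, Measure.dirac_apply' _ hA]
  · intro i j hij
    refine Set.disjoint_left.2 fun x hx hx' => hij ?_
    have h3 : x = i.1 := hx.2
    have h4 : x = j.1 := hx'.2
    exact Subtype.ext (h3.symm.trans h4)
  · intro i
    exact hA.inter (measurableSet_singleton _)

end Pool.Agent.R243.BM
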