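import Mathlib
import Pool.Agent.R243.BM.Defs

set_option autoImplicit false

namespace Pool.Agent.R243.BM

open Filter Topology MeasureTheory Set
open scoped ENNReal NNReal

/-- `exp(-t^{-α})` -/
noncomputable def hfun (α t : ℝ) : ℝ := if t = 0 then 0 else Real.exp (-(|t| ^ (-α)))

theorem hfun_nonneg (α t : ℝ) : 0 ≤ hfun α t := by
  unfold hfun; split_ifs <;> positivity

theorem hfun_le_one (α t : ℝ) : hfun α t ≤ 1 := by
  unfold hfun
  split_ifs
  · norm_num
  · rw [Real.exp_le_one_iff]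
    have : 0 ≤ |t| ^ (-α) := by positivity
    linarith

theorem hfun_cont {α : ℝ} (hα : 0 < α) : Continuous (hfun α) := by
  rw [continuous_iff_continuousAt]
  intro t
  by_cases ht : t = 0
  · subst ht
    have h0 : hfun α 0 = 0 := by simp [hfun]
    rw [continuousAt_iff_punctured_nhds, h0]
    have h1 : Tendsto (fun t : ℝ => |t| ^ (-α)) (𝓝[≠] 0) atTop := by
      have h2 : Tendsto (fun t : ℝ => |t|) (𝓝[≠] 0) (𝓝[>] 0) := tendsto_abs_nhdsNE_zero
      have h3 : Tendsto (fun t : ℝ => t ^ (-α)) (𝓝[>] 0) atTop :=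
        tendsto_rpow_neg_nhdsGT_zero (by linarith)
      exact h3.comp h2
    have h4 : Tendsto (hfun α) (𝓝[≠] 0) (𝓝 0) := by
      have h5 := Real.tendsto_exp_neg_atTop_nhds_zero.comp h1
      refine h5.congr' ?_
      filter_upwards [self_mem_nhdsWithin] with t ht
      have ht' : t ≠ 0 := ht
      simp [hfun, ht']
    exact h4
  · have h1 : hfun α =ᶠ[𝓝 t] fun t => Real.exp (-(|t| ^ (-α))) := by
      filter_upwards [isOpen_ne.mem_nhds ht] with s hs
      have hs' : s ≠ 0 := hs
      simp [hfun, hs']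
    refine ContinuousAt.congr ?_ h1.symm
    have h2 : ContinuousAt (fun t : ℝ => |t| ^ (-α)) t :=
      (continuous_abs.continuousAt).rpow_const (Or.inl (abs_ne_zero.2 ht))
    exact h2.neg.rexp

theorem expPot_eq (α : ℝ) {m d : ℕ} (x : Fin m → E d) (y : E d) :
    expPot α x y = ∏ j, hfun α ‖y - x j‖ := by
  unfold expPot
  split_ifs with h
  · obtain ⟨j, hj⟩ := h
    symm
    apply Finset.prod_eq_zero (Finset.mem_univ j)
    simp [hfun, hj]
  · push Not at h
    have : ∀ j, hfun α ‖y - x j‖ = Real.exp (-(‖y - x j‖ ^ (-α))) := by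
      intro j
      have hne : ‖y - x j‖ ≠ 0 := norm_ne_zero_iff.2 (sub_ne_zero.2 (h j))
      simp [hfun, hne]
    simp only [this]
    rw [← Real.exp_sum, Finset.sum_neg_distrib]

theorem expPot_nonneg (α : ℝ) {m d : ℕ} (x : Fin m → E d) (y : E d) : 0 ≤ expPot α x y := by
  rw [expPot_eq]
  exact Finset.prod_nonneg fun j _ => hfun_nonneg _ _

theorem expPot_le_one (α : ℝ) {m d : ℕ} (x : Fin m → E d) (y : E d) : expPot α x y ≤ 1 := by
  rw [expPot_eq]
  exact Finset.prod_le_one (fun j _ => hfun_nonneg _ _) fun j _ => hfun_le_one _ _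

theorem expPot_cont {α : ℝ} (hα : 0 < α) (m d : ℕ) :
    Continuous (fun q : (Fin m → E d) × E d => expPot α q.1 q.2) := by
  simp only [expPot_eq]
  refine continuous_finsetProd _ fun j _ => (hfun_cont hα).comp ?_
  fun_prop

theorem expPot_cont' {α : ℝ} (hα : 0 < α) {m d : ℕ} (x : Fin m → E d) :
    Continuous (expPot α x) :=
  (expPot_cont hα m d).comp (Continuous.prodMk_right x)

theorem expPot_int {α : ℝ} (hα : 0 < α) {m d : ℕ} (x : Fin m → E d) (μ : Measure (E d))
    [IsFiniteMeasure μ] : Integrable (expPot α x) μ :=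
  (integrable_const (1:ℝ)).mono' (expPot_cont' hα x).aestronglyMeasurable
    (Eventually.of_forall fun y => by
      rw [Real.norm_of_nonneg (expPot_nonneg _ _ _)]; exact expPot_le_one _ _ _)

end Pool.Agent.R243.BM
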