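import Mathlib
import Pool.Agent.R243.BM.Cont

set_option autoImplicit false

namespace Pool.Agent.R243.BM

open Filter Topology MeasureTheory Set
open scoped ENNReal NNReal

/-- the grid at level `k` -/
noncomputable def gridN (A k : ℕ) : ℕ := A * 2 ^ k + 1

noncomputable def gridV (d A k : ℕ) : Finset (Fin d → ℤ) :=
  Fintype.piFinset fun _ => Finset.Icc (-(gridN A k : ℤ)) (gridN A k)

theorem card_gridV (d A k : ℕ) : (gridV d A k).card = (2 * gridN A k + 1) ^ d := by
  unfold gridV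
  rw [Fintype.card_piFinset]
  simp only [Int.card_Icc, Finset.prod_const, Finset.card_univ, Fintype.card_fin]
  congr 1
  omega

open Classical in
noncomputable def gridP {d : ℕ} (K : Set (E d)) (y₀ : E d) (k : ℕ) (v : Fin d → ℤ) : E d :=
  if h : ∃ y ∈ K, ∀ i, ⌊(2:ℝ) ^ k * y i⌋ = v i then h.choose else y₀

theorem gridP_mem {d : ℕ} {K : Set (E d)} {y₀ : E d} (h0 : y₀ ∈ K) (k : ℕ) (v : Fin d → ℤ) :
    gridP K y₀ k v ∈ K := by
  unfold gridP
  split_ifs with h
  · exact h.choose_spec.1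
  · exact h0

theorem gridP_near {d : ℕ} {K : Set (E d)} {y₀ y : E d} (hy : y ∈ K) (k : ℕ) :
    dist (gridP K y₀ k fun i => ⌊(2:ℝ) ^ k * y i⌋) y ≤ ((d:ℝ) + 1) / 2 ^ k := by
  have h : ∃ y' ∈ K, ∀ i, ⌊(2:ℝ) ^ k * y' i⌋ = (fun i => ⌊(2:ℝ) ^ k * y i⌋) i :=
    ⟨y, hy, fun i => rfl⟩
  have e : gridP K y₀ k (fun i => ⌊(2:ℝ) ^ k * y i⌋) = h.choose := by
    unfold gridP
    rw [dif_pos h]
  rw [e]
  set z := h.choose with hz
  have hzs := h.choose_spec.2
  rw [← hz] at hzs
  have h2k : (0:ℝ) < 2 ^ k := by positivity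
  have hi : ∀ i, (z i - y i) ^ 2 ≤ (1 / 2 ^ k) ^ 2 := by
    intro i
    have h1 := Int.abs_sub_lt_one_of_floor_eq_floor (hzs i)
    have h2 : |z i - y i| * 2 ^ k < 1 := by
      have h5 : |z i - y i| * 2 ^ k = |2 ^ k * z i - 2 ^ k * y i| := by
        rw [← mul_sub, abs_mul, abs_of_pos h2k, mul_comm]
      rw [h5]; exact h1
    have h3 : |z i - y i| ≤ 1 / 2 ^ k := by
      rw [le_div_iff₀ h2k]; exact h2.le
    rw [← sq_abs]
    exact pow_le_pow_left₀ (abs_nonneg _) h3 2
  rw [EuclideanSpace.dist_eq]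
  have h4 : ∑ i, dist (z i) (y i) ^ 2 ≤ (((d:ℝ) + 1) / 2 ^ k) ^ 2 := by
    calc ∑ i, dist (z i) (y i) ^ 2 ≤ ∑ _i : Fin d, ((1:ℝ) / 2 ^ k) ^ 2 := by
          refine Finset.sum_le_sum fun i _ => ?_
          rw [Real.dist_eq, sq_abs]
          exact hi i
      _ = d * (1 / 2 ^ k) ^ 2 := by simp
      _ ≤ (d + 1) ^ 2 * (1 / 2 ^ k) ^ 2 := by
          apply mul_le_mul_of_nonneg_right _ (by positivity)
          have : (0:ℝ) ≤ d := Nat.cast_nonneg d
          nlinarith
      _ = _ := by ring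
  calc Real.sqrt (∑ i, dist (z i) (y i) ^ 2) ≤ Real.sqrt ((((d:ℝ) + 1) / 2 ^ k) ^ 2) :=
        Real.sqrt_le_sqrt h4
    _ = _ := Real.sqrt_sq (by positivity)

/-- every nonempty compact set carries a finite discrete measure of polynomial lower density -/
theorem exists_dens {d : ℕ} {K : Set (E d)} (hK : IsCompact K) (hne : K.Nonempty) :
    ∃ μ : Measure (E d), IsFiniteMeasure μ ∧ IsDiscreteOn K μ ∧ ∃ c : ℝ, 0 < c ∧ ∃ T : ℕ,
      ∀ y ∈ K, ∀ r : ℝ, 0 < r → r ≤ 1 → c * r ^ T ≤ μ.real (Metric.closedBall y r) := by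
  obtain ⟨y₀, hy₀⟩ := hne
  obtain ⟨R, hR⟩ := hK.isBounded.exists_norm_le
  set A : ℕ := ⌈R⌉₊ with hA
  have hRA : ∀ y ∈ K, ‖y‖ ≤ A := fun y hy => (hR y hy).trans (Nat.le_ceil R)
  set w : ℕ → ℝ := fun k => 1 / (2 ^ k * (2 * (gridN A k : ℝ) + 1) ^ d) with hw
  have hw0 : ∀ k, 0 < w k := fun k => by simp only [hw]; positivity
  set ν : ℕ → Measure (E d) := fun k =>
    ∑ v ∈ gridV d A k, ENNReal.ofReal (w k) • Measure.dirac (gridP K y₀ k v) with hν
  set μ : Measure (E d) := Measure.sum ν with hμ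
  have htot : ∀ k, ν k univ = ENNReal.ofReal ((1 / 2) ^ k) := by
    intro k
    rw [hν]
    simp only [Measure.coe_finsetSum, Finset.sum_apply, Measure.smul_apply, measure_univ,
      smul_eq_mul, mul_one, Finset.sum_const, card_gridV, nsmul_eq_mul]
    rw [← ENNReal.ofReal_natCast, ← ENNReal.ofReal_mul (by positivity)]
    congr 1
    simp only [hw]
    push_cast
    have : (0:ℝ) < (2 * (gridN A k : ℝ) + 1) ^ d := by positivity
    field_simp
    rw [one_div, inv_pow, mul_inv_cancel₀ (by positivity)]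
  have hfin : IsFiniteMeasure μ := by
    constructor
    rw [hμ, Measure.sum_apply _ MeasurableSet.univ]
    simp only [htot]
    rw [← ENNReal.ofReal_tsum_of_nonneg (fun n => by positivity) summable_geometric_two]
    exact ENNReal.ofReal_lt_top
  set S : Set (E d) := ⋃ k, ⋃ v : Fin d → ℤ, {gridP K y₀ k v} with hS
  have hSc : S.Countable := countable_iUnion fun k => countable_iUnion fun v => countable_singleton _
  have hmem : ∀ k v, gridP K y₀ k v ∈ S := fun k v =>
    mem_iUnion.2 ⟨k, mem_iUnion.2 ⟨v, rfl⟩⟩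
  refine ⟨μ, hfin, ⟨S, hSc, ?_, ?_⟩, ?_⟩
  · refine iUnion_subset fun k => iUnion_subset fun v => ?_
    rw [singleton_subset_iff]
    exact gridP_mem hy₀ k v
  · rw [hμ, Measure.sum_apply _ hSc.measurableSet.compl, ENNReal.tsum_eq_zero]
    intro k
    rw [hν]
    simp only [Measure.coe_finsetSum, Finset.sum_apply, Measure.smul_apply, smul_eq_mul]
    refine Finset.sum_eq_zero fun v _ => ?_
    rw [Measure.dirac_apply' _ hSc.measurableSet.compl, indicator_of_notMem, mul_zero]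
    exact fun h => h (hmem k v)
  · set c₀ : ℝ := 1 / ((2 * (A:ℝ) + 3) ^ d * (4 * ((d:ℝ) + 1)) ^ (d + 1)) with hc₀
    refine ⟨c₀, by positivity, d + 1, fun y hy r hr hr1 => ?_⟩
    set X : ℕ := ⌈((d:ℝ) + 1) / r⌉₊ with hX
    set k : ℕ := Nat.clog 2 X with hk
    have hX1 : ((d:ℝ) + 1) / r ≤ X := Nat.le_ceil _
    have hd1 : (1:ℝ) ≤ ((d:ℝ) + 1) / r := by
      rw [le_div_iff₀ hr]
      have : (0:ℝ) ≤ d := Nat.cast_nonneg d
      linarith
    have hX2 : (X:ℝ) ≤ 2 * (((d:ℝ) + 1) / r) := by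
      have := Nat.ceil_lt_add_one (a := ((d:ℝ) + 1) / r) (by linarith)
      linarith
    have hk1 : (X:ℝ) ≤ 2 ^ k := by
      have := Nat.le_pow_clog (b := 2) (by norm_num) X
      exact_mod_cast this
    have hk2 : (2:ℝ) ^ k ≤ 2 * X := by
      by_cases hX1' : X ≤ 1
      · have hX0 : X = 1 := by
          have : (1:ℝ) ≤ X := hd1.trans hX1
          have : 1 ≤ X := by exact_mod_cast this
          omega
        rw [hk, hX0]
        norm_num
      · push Not at hX1'
        have h1 := Nat.pow_pred_clog_lt_self (b := 2) (by norm_num) hX1'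
        have h2 : 0 < Nat.clog 2 X := Nat.clog_pos (by norm_num) hX1'
        have h3 : 2 ^ k = 2 * 2 ^ (Nat.clog 2 X - 1) := by
          rw [hk, ← pow_succ']; congr 1; omega
        have h4 : 2 ^ k ≤ 2 * X := by
          rw [h3]
          have : 2 ^ (Nat.clog 2 X - 1) < X := h1
          omega
        exact_mod_cast h4
    have hkr : (2:ℝ) ^ k ≤ 4 * ((d:ℝ) + 1) / r := by
      calc (2:ℝ) ^ k ≤ 2 * X := hk2
        _ ≤ 2 * (2 * (((d:ℝ) + 1) / r)) := by linarith
        _ = _ := by ring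
    set v : Fin d → ℤ := fun i => ⌊(2:ℝ) ^ k * y i⌋ with hv
    have hvV : v ∈ gridV d A k := by
      unfold gridV
      rw [Fintype.mem_piFinset]
      intro i
      rw [Finset.mem_Icc]
      have h1 : |y i| ≤ A := (PiLp.norm_apply_le y i).trans (hRA y hy)
      have h2 := abs_le.1 h1
      have h2k : (0:ℝ) < 2 ^ k := by positivity
      have hN : (gridN A k : ℝ) = A * 2 ^ k + 1 := by unfold gridN; push_cast; ring
      constructor
      · simp only [hv]
        rw [Int.le_floor]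
        push_cast
        rw [hN]
        nlinarith [h2.1]
      · have h3 : (v i : ℝ) ≤ (gridN A k : ℝ) := by
          have := Int.floor_le ((2:ℝ) ^ k * y i)
          rw [hN]
          have h4 : ((v i : ℤ) : ℝ) = ((⌊(2:ℝ) ^ k * y i⌋ : ℤ) : ℝ) := rfl
          rw [h4]
          nlinarith [h2.2]
        exact_mod_cast h3
    have hnear : gridP K y₀ k v ∈ Metric.closedBall y r := by
      rw [Metric.mem_closedBall]
      refine (gridP_near hy k).trans ?_
      rw [div_le_iff₀ (by positivity)]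
      have h1 : ((d:ℝ) + 1) / r ≤ 2 ^ k := hX1.trans hk1
      rw [div_le_iff₀ hr] at h1
      linarith
    have hlow : ENNReal.ofReal (w k) ≤ μ (Metric.closedBall y r) := by
      have h1 : ν k (Metric.closedBall y r) ≤ μ (Metric.closedBall y r) := Measure.le_sum ν k _
      refine le_trans ?_ h1
      rw [hν]
      simp only [Measure.coe_finsetSum, Finset.sum_apply, Measure.smul_apply, smul_eq_mul]
      refine le_trans ?_ (Finset.single_le_sum (f := fun v => ENNReal.ofReal (w k) *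
        (Measure.dirac (gridP K y₀ k v)) (Metric.closedBall y r)) (fun _ _ => zero_le) hvV)
      rw [Measure.dirac_apply' _ Metric.isClosed_closedBall.measurableSet, indicator_of_mem hnear]
      simp
    have h5 : w k ≤ μ.real (Metric.closedBall y r) := by
      have := ENNReal.toReal_mono (measure_ne_top _ _) hlow
      rwa [ENNReal.toReal_ofReal (hw0 k).le] at this
    refine le_trans ?_ h5
    have h2k : (1:ℝ) ≤ 2 ^ k := one_le_pow₀ (by norm_num)
    have hgr : 2 * (gridN A k : ℝ) + 1 ≤ (2 * (A:ℝ) + 3) * 2 ^ k := by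
      have hN : (gridN A k : ℝ) = A * 2 ^ k + 1 := by unfold gridN; push_cast; ring
      rw [hN]
      nlinarith
    have h6 : 2 ^ k * (2 * (gridN A k : ℝ) + 1) ^ d ≤
        (2 * (A:ℝ) + 3) ^ d * (4 * ((d:ℝ) + 1) / r) ^ (d + 1) := by
      calc 2 ^ k * (2 * (gridN A k : ℝ) + 1) ^ d ≤ 2 ^ k * ((2 * (A:ℝ) + 3) * 2 ^ k) ^ d := by gcongr
        _ = (2 * (A:ℝ) + 3) ^ d * (2 ^ k) ^ (d + 1) := by rw [mul_pow, pow_succ]; ring
        _ ≤ _ := by gcongr
    simp only [hw, hc₀]
    rw [one_div_mul_eq_div, div_le_div_iff₀ (by positivity) (by positivity), one_mul]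
    calc r ^ (d + 1) * (2 ^ k * (2 * (gridN A k : ℝ) + 1) ^ d) ≤
          r ^ (d + 1) * ((2 * (A:ℝ) + 3) ^ d * (4 * ((d:ℝ) + 1) / r) ^ (d + 1)) := by gcongr
      _ = _ := by
          rw [div_pow]
          field_simp

end Pool.Agent.R243.BM
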