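import Mathlib
import Pool.Agent.R243.BM.Cont

set_option autoImplicit false

namespace Pool.Agent.R243.BM

open Filter Topology MeasureTheory Set
open scoped ENNReal NNReal

theorem tendsto_poly_root {C : ℝ} (hC : 0 < C) (S : ℕ) :
    Tendsto (fun n : ℕ => (C * ((n:ℝ) + 1) ^ S) ^ (1 / (n : ℝ))) atTop (𝓝 1) := by
  have h1 : Tendsto (fun n : ℕ => C ^ (1 / (n : ℝ))) atTop (𝓝 1) := by
    have h2 : Tendsto (fun n : ℕ => 1 / (n : ℝ)) atTop (𝓝 0) := tendsto_one_div_atTop_nhds_zero_nat
    have h3 := (Real.continuous_const_rpow hC.ne').tendsto 0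
    rw [Real.rpow_zero] at h3
    exact h3.comp h2
  have h4 : Tendsto (fun n : ℕ => ((n:ℝ) + 1) ^ (1 / (n : ℝ))) atTop (𝓝 1) := by
    have h5 := tendsto_rpow_div_mul_add 1 1 (-1) (by norm_num)
    have h6 : Tendsto (fun n : ℕ => (n:ℝ) + 1) atTop atTop :=
      tendsto_atTop_add_const_right _ _ tendsto_natCast_atTop_atTop
    refine (h5.comp h6).congr fun n => ?_
    simp only [Function.comp]
    congr 2
    ring
  have h7 := h1.mul (h4.pow S)
  rw [one_pow, mul_one] at h7
  refine h7.congr fun n => ?_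
  rw [Real.mul_rpow hC.le (by positivity), ← Real.rpow_natCast, ← Real.rpow_natCast,
    ← Real.rpow_mul (by positivity), ← Real.rpow_mul (by positivity)]
  congr 2
  ring

/-- finite approximation of the measure -/
theorem approx {α : ℝ} (hα : 0 < α) {d : ℕ} {K : Set (E d)} (hK : IsCompact K)
    (hKi : K.Infinite) {μ : Measure (E d)} [IsFiniteMeasure μ] (hμK : μ Kᶜ = 0) {m : ℕ} {M : ℝ}
    (hM : 0 < M) (hBM : ∀ x : Fin m → E d, (∀ j, x j ∈ K) →
      ∀ y ∈ K, expPot α x y ≤ M * ∫ z, expPot α x z ∂μ) :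
    ∃ μ' : Measure (E d), μ' univ ≤ μ univ ∧ (∃ S : Set (E d), S.Countable ∧ S ⊆ K ∧ μ' Sᶜ = 0) ∧
      ∀ x : Fin m → E d, (∀ j, x j ∈ K) →
        ∫ z, expPot α x z ∂μ ≤ 2 * ∫ z, expPot α x z ∂μ' := by
  have hKne : K.Nonempty := hKi.nonempty
  set P : Set (Fin m → E d) := Set.pi univ fun _ => K with hP
  have hPc : IsCompact P := isCompact_univ_pi fun _ => hK
  have hPne : P.Nonempty := by
    obtain ⟨y, hy⟩ := hKne
    exact ⟨fun _ => y, fun _ _ => hy⟩
  have hcont : Continuous fun x : Fin m → E d => ∫ z, expPot α x z ∂μ := by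
    refine continuous_of_dominated (bound := fun _ => 1)
      (fun x => (expPot_cont' hα x).aestronglyMeasurable) (fun x => Eventually.of_forall fun z => ?_)
      (integrable_const _) (Eventually.of_forall fun z => ?_)
    · rw [Real.norm_of_nonneg (expPot_nonneg _ _ _)]; exact expPot_le_one _ _ _
    · exact (expPot_cont hα m d).comp (Continuous.prodMk_left z)
  obtain ⟨x₀, hx₀, hmin⟩ := hPc.exists_isMinOn hPne hcont.continuousOn
  set s : ℝ := ∫ z, expPot α x₀ z ∂μ with hs
  have hs0 : 0 < s := by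
    obtain ⟨y, hyK, hy⟩ : ∃ y ∈ K, y ∉ range x₀ := by
      have := hKi.sdiff (finite_range x₀)
      obtain ⟨y, hy⟩ := this.nonempty
      exact ⟨y, hy.1, hy.2⟩
    have h1 := hBM x₀ (fun j => hx₀ j (mem_univ j)) y hyK
    have h2 : 0 < expPot α x₀ y := by
      unfold expPot
      rw [if_neg (fun ⟨j, hj⟩ => hy ⟨j, hj.symm⟩)]
      exact Real.exp_pos _
    have h3 : 0 < M * s := h2.trans_le h1
    exact (pos_iff_pos_of_mul_pos h3).1 hM
  set V : ℝ := μ.real univ with hV
  have hV0 : 0 ≤ V := measureReal_nonneg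
  set ε : ℝ := s / (2 * (V + 1)) with hε
  have hε0 : 0 < ε := by positivity
  have hPK : IsCompact (P ×ˢ K) := hPc.prod hK
  have huc := hPK.uniformContinuousOn_of_continuous (expPot_cont hα m d).continuousOn
  rw [Metric.uniformContinuousOn_iff] at huc
  obtain ⟨δ, hδ, huc⟩ := huc ε hε0
  obtain ⟨t, htK, htf, htc⟩ := hK.finite_cover_balls hδ
  have htne : t.Nonempty := by
    obtain ⟨y, hy⟩ := hKne
    have := htc hy
    simp only [mem_iUnion] at this
    obtain ⟨x, hx, _⟩ := this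
    exact ⟨x, hx⟩
  obtain ⟨e, he⟩ := htf.countable.exists_eq_range htne
  obtain ⟨N, hN⟩ : ∃ N : ℕ, ∀ x ∈ t, ∃ k ≤ N, e k = x := by
    have h1 : ∀ x ∈ t, ∃ k, e k = x := by
      intro x hx
      rw [he] at hx
      exact hx
    choose! k hk using h1
    obtain ⟨N, hN⟩ := (htf.image k).bddAbove
    exact ⟨N, fun x hx => ⟨k x, hN ⟨x, hx, rfl⟩, hk x hx⟩⟩
  set π : E d → E d := ⇑(SimpleFunc.nearestPt e N) with hπ
  have hπm : Measurable π := (SimpleFunc.nearestPt e N).measurable
  have hπr : ∀ z, π z ∈ t := by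
    intro z
    rw [he]
    exact ⟨SimpleFunc.nearestPtInd e N z, rfl⟩
  have hπd : ∀ z ∈ K, dist (π z) z < δ := by
    intro z hz
    have := htc hz
    simp only [mem_iUnion] at this
    obtain ⟨x, hx, hzx⟩ := this
    obtain ⟨k, hkN, rfl⟩ := hN x hx
    have h1 := SimpleFunc.edist_nearestPt_le e z hkN
    rw [edist_dist, edist_dist] at h1
    have h2 := (ENNReal.ofReal_le_ofReal_iff dist_nonneg).1 h1
    rw [Metric.mem_ball, dist_comm] at hzx
    exact h2.trans_lt hzx
  refine ⟨μ.map π, ?_, ⟨t, htf.countable, htK, ?_⟩, ?_⟩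
  · rw [Measure.map_apply hπm MeasurableSet.univ, preimage_univ]
  · rw [Measure.map_apply hπm htf.measurableSet.compl]
    have : π ⁻¹' tᶜ = ∅ := by
      ext z
      simp only [mem_preimage, mem_compl_iff, mem_empty_iff_false, iff_false, not_not]
      exact hπr z
    rw [this, measure_empty]
  · intro x hx
    have hxP : x ∈ P := fun j _ => hx j
    have h1 : s ≤ ∫ z, expPot α x z ∂μ := hmin hxP
    rw [integral_map hπm.aemeasurable (expPot_cont' hα x).aestronglyMeasurable]
    have i1 := expPot_int hα x μ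
    have i2 : Integrable (fun z => expPot α x (π z)) μ :=
      (integrable_const (1:ℝ)).mono'
        ((expPot_cont' hα x).measurable.comp hπm).aestronglyMeasurable
        (Eventually.of_forall fun y => by
          rw [Real.norm_of_nonneg (expPot_nonneg _ _ _)]; exact expPot_le_one _ _ _)
    have h2 : |(∫ z, expPot α x z ∂μ) - ∫ z, expPot α x (π z) ∂μ| ≤ ε * V := by
      rw [← integral_sub i1 i2]
      have := norm_integral_le_of_norm_le_const (μ := μ) (C := ε)
        (f := fun z => expPot α x z - expPot α x (π z)) ?_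
      · simpa only [Real.norm_eq_abs] using this
      · have hKae : ∀ᵐ z ∂μ, z ∈ K := hμK
        filter_upwards [hKae] with z hz
        have h3 := huc (x, z) ⟨hxP, hz⟩ (x, π z) ⟨hxP, htK (hπr z)⟩ (by
          rw [Prod.dist_eq, dist_self, max_eq_right dist_nonneg, dist_comm]
          exact hπd z hz)
        rw [Real.dist_eq] at h3
        rw [Real.norm_eq_abs]
        exact h3.le
    have h3 : ε * V ≤ s / 2 := by
      rw [hε, div_mul_eq_mul_div, div_le_div_iff₀ (by positivity) (by norm_num)]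
      nlinarith
    have h4 := abs_le.1 h2
    linarith [h4.1, h4.2]

/-- **Q2** -/
theorem discrete_of_exists {α : ℝ} (hα : 0 < α) {d : ℕ} {K : Set (E d)} (hK : IsCompact K)
    {μ : Measure (E d)} (hμ : RieszBM α K μ) :
    ∃ μ' : Measure (E d), RieszBM α K μ' ∧ IsDiscreteOn K μ' := by
  by_cases hc : K.Countable
  · exact ⟨μ, hμ, K, hc, subset_rfl, hμ.2.1⟩
  have hKi : K.Infinite := fun hf => hc hf.countable
  obtain ⟨hfin, hμK, M, hM0, hMl, hBM⟩ := hμ
  have hex : ∀ n : ℕ, ∃ μ' : Measure (E d), μ' univ ≤ μ univ ∧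
      (∃ S : Set (E d), S.Countable ∧ S ⊆ K ∧ μ' Sᶜ = 0) ∧
      (2 ≤ n → ∀ x : Fin (n - 1) → E d, (∀ j, x j ∈ K) →
        ∫ z, expPot α x z ∂μ ≤ 2 * ∫ z, expPot α x z ∂μ') := by
    intro n
    by_cases hn : 2 ≤ n
    · obtain ⟨μ', h1, h2, h3⟩ := approx hα hK hKi hμK (hM0 n) (hBM n hn)
      exact ⟨μ', h1, h2, fun _ => h3⟩
    · exact ⟨0, by simp, ⟨∅, countable_empty, empty_subset _, by simp⟩, fun h => absurd h hn⟩
  choose ν hν1 hν2 hν3 using hex
  choose S hS1 hS2 hS3 using hν2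
  set w : ℕ → ℝ≥0∞ := fun n => ENNReal.ofReal (1 / ((n:ℝ) + 1) ^ 2) with hw
  set μ' : Measure (E d) := Measure.sum fun n => w n • ν n with hμ'
  have hwsum : ∑' n, w n ≠ ⊤ := by
    rw [hw, ← ENNReal.ofReal_tsum_of_nonneg (fun n => by positivity)]
    · exact ENNReal.ofReal_ne_top
    · have := (summable_nat_add_iff 1 (f := fun n : ℕ => 1 / ((n:ℝ)) ^ 2)).2
        (Real.summable_one_div_nat_pow.2 (by norm_num))
      refine this.congr fun n => ?_
      push_cast
      rfl
  have hμ'fin : IsFiniteMeasure μ' := by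
    constructor
    rw [hμ', Measure.sum_apply _ MeasurableSet.univ]
    calc ∑' n, (w n • ν n) univ ≤ ∑' n, w n * μ univ := by
          refine ENNReal.tsum_le_tsum fun n => ?_
          rw [Measure.smul_apply, smul_eq_mul]
          exact mul_le_mul_right (hν1 n) _
      _ = (∑' n, w n) * μ univ := ENNReal.tsum_mul_right
      _ < ⊤ := ENNReal.mul_lt_top hwsum.lt_top (measure_lt_top _ _)
  have hdisc : IsDiscreteOn K μ' := by
    refine ⟨⋃ n, S n, countable_iUnion hS1, iUnion_subset hS2, ?_⟩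
    rw [hμ', Measure.sum_apply _ (countable_iUnion hS1).measurableSet.compl, ENNReal.tsum_eq_zero]
    intro n
    rw [Measure.smul_apply, smul_eq_mul]
    have : ν n (⋃ n, S n)ᶜ = 0 :=
      measure_mono_null (compl_subset_compl.2 (subset_iUnion S n)) (hS3 n)
    rw [this, mul_zero]
  refine ⟨μ', ⟨hμ'fin, ?_, fun n => 2 * ((n:ℝ) + 1) ^ 2 * M n, fun n => ?_, ?_, ?_⟩, hdisc⟩
  · obtain ⟨T, _, hT, hT0⟩ := hdisc
    exact measure_mono_null (compl_subset_compl.2 hT) hT0
  · have := hM0 n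
    positivity
  · have h1 := (tendsto_poly_root (C := 2) (by norm_num) 2).mul hMl
    rw [one_mul] at h1
    refine h1.congr fun n => ?_
    rw [← Real.mul_rpow (by positivity) (hM0 n).le]
  · intro n hn x hx y hy
    have hfn : IsFiniteMeasure (ν n) := ⟨(hν1 n).trans_lt (measure_lt_top _ _)⟩
    have h1 := hBM n hn x hx y hy
    have h2 := hν3 n hn x hx
    have h3 : 1 / ((n:ℝ) + 1) ^ 2 * ∫ z, expPot α x z ∂(ν n) ≤ ∫ z, expPot α x z ∂μ' := by
      have h4 : w n • ν n ≤ μ' := Measure.le_sum (fun n => w n • ν n) n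
      have h5 := integral_mono_measure h4 (Eventually.of_forall fun z => expPot_nonneg α x z)
        (expPot_int hα x μ')
      rw [integral_smul_measure] at h5
      have h6 : (w n).toReal = 1 / ((n:ℝ) + 1) ^ 2 := by
        rw [hw, ENNReal.toReal_ofReal (by positivity)]
      rw [h6] at h5
      exact h5
    have hpos : 0 < ((n:ℝ) + 1) ^ 2 := by positivity
    have h7 : ∫ z, expPot α x z ∂(ν n) ≤ ((n:ℝ) + 1) ^ 2 * ∫ z, expPot α x z ∂μ' := by
      rw [one_div, inv_mul_le_iff₀ hpos] at h3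
      exact h3
    calc expPot α x y ≤ M n * ∫ z, expPot α x z ∂μ := h1
      _ ≤ M n * (2 * (((n:ℝ) + 1) ^ 2 * ∫ z, expPot α x z ∂μ')) := by
          apply mul_le_mul_of_nonneg_left _ (hM0 n).le
          linarith
      _ = _ := by ring

end Pool.Agent.R243.BM
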