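import Mathlib
import Pool.Agent.R243.BM.Dens
import Pool.Agent.R243.BM.Disc

set_option autoImplicit false

namespace Pool.Agent.R243.BM

open Filter Topology MeasureTheory Set
open scoped ENNReal NNReal

theorem kernel_meas {α : ℝ} {d : ℕ} :
    Measurable (fun q : E d × E d => (edist q.1 q.2) ^ (-α)) :=
  measurable_edist.pow_const _

theorem meas_left {α : ℝ} {d : ℕ} (x : E d) : Measurable (fun y : E d => (edist x y) ^ (-α)) := by
  have h : Measurable (fun y : E d => edist x y) := measurable_edist_right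
  exact h.pow_const _

theorem meas_right {α : ℝ} {d : ℕ} (x : E d) : Measurable (fun y : E d => (edist y x) ^ (-α)) := by
  have h : Measurable (fun y : E d => edist y x) := measurable_edist_left
  exact h.pow_const _

theorem pow_compare {α : ℝ} (hα : 0 < α) {a b : ℝ≥0∞} (h3 : b ≤ 2 * a) :
    a ^ (-α) ≤ (2:ℝ≥0∞) ^ α * b ^ (-α) := by
  have h4 : b ^ α ≤ (2:ℝ≥0∞) ^ α * a ^ α := by
    rw [← ENNReal.mul_rpow_of_nonneg _ _ hα.le]
    exact ENNReal.rpow_le_rpow h3 hα.le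
  rw [ENNReal.rpow_neg, ENNReal.rpow_neg]
  have h5 : ((2:ℝ≥0∞) ^ α * a ^ α)⁻¹ ≤ (b ^ α)⁻¹ :=
    ENNReal.inv_le_inv.2 h4
  have h6 : (2:ℝ≥0∞) ^ α ≠ 0 := by
    simp [ENNReal.rpow_eq_zero_iff]
  have h7 : (2:ℝ≥0∞) ^ α ≠ ⊤ := ENNReal.rpow_ne_top_of_nonneg hα.le (by norm_num)
  rw [ENNReal.mul_inv (Or.inl h6) (Or.inl h7)] at h5
  calc (a ^ α)⁻¹ = (2:ℝ≥0∞) ^ α * (((2:ℝ≥0∞) ^ α)⁻¹ * (a ^ α)⁻¹) := by
        rw [← mul_assoc, ENNReal.mul_inv_cancel h6 h7, one_mul]
    _ ≤ _ := mul_le_mul' le_rfl h5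

theorem kernel_compare {α : ℝ} (hα : 0 < α) {d : ℕ} {K' : Set (E d)} {x x' y : E d}
    (hx : Metric.infEDist x K' = edist x x') (hy : y ∈ K') :
    (edist x y) ^ (-α) ≤ (2:ℝ≥0∞) ^ α * (edist x' y) ^ (-α) := by
  refine pow_compare hα ?_
  have h2 : edist x x' ≤ edist x y := by
    rw [← hx]
    exact Metric.infEDist_le_edist_of_mem hy
  calc edist x' y ≤ edist x' x + edist x y := edist_triangle _ _ _
    _ ≤ edist x y + edist x y := by
        rw [edist_comm x' x]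
        exact add_le_add h2 le_rfl
    _ = _ := (two_mul _).symm

theorem pot_bound {α : ℝ} (hα : 0 < α) {d : ℕ} {ν : Measure (E d)} {K' : Set (E d)}
    (hK'c : IsCompact K') (hK'ne : K'.Nonempty) {n : ℝ≥0∞}
    (hle : ∀ x ∈ K', ∫⁻ y, (edist x y) ^ (-α) ∂ν ≤ n) (x : E d) :
    ∫⁻ y in K', (edist x y) ^ (-α) ∂ν ≤ (2:ℝ≥0∞) ^ α * n := by
  have hK'm : MeasurableSet K' := hK'c.isClosed.measurableSet
  obtain ⟨x', hx', hxx'⟩ := hK'c.exists_infEDist_eq_edist hK'ne x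
  have h1 : ∫⁻ y in K', (edist x y) ^ (-α) ∂ν ≤
      ∫⁻ y in K', (2:ℝ≥0∞) ^ α * (edist x' y) ^ (-α) ∂ν :=
    setLIntegral_mono' hK'm fun y hy => kernel_compare hα hxx' hy
  have h2 : ∫⁻ y in K', (2:ℝ≥0∞) ^ α * (edist x' y) ^ (-α) ∂ν =
      (2:ℝ≥0∞) ^ α * ∫⁻ y in K', (edist x' y) ^ (-α) ∂ν :=
    lintegral_const_mul _ (meas_left x')
  have h3 : ∫⁻ y in K', (edist x' y) ^ (-α) ∂ν ≤ ∫⁻ y, (edist x' y) ^ (-α) ∂ν :=
    setLIntegral_le_lintegral _ _
  rw [h2] at h1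
  exact h1.trans (mul_le_mul' le_rfl (h3.trans (hle x' hx')))

/-- points of small potential -/
theorem exists_low {α : ℝ} (hα : 0 < α) {d : ℕ} {K : Set (E d)} (hK : IsCompact K)
    (hcap : PositiveCapacity α K) : ∃ C : ℝ, 1 ≤ C ∧ ∀ m : ℕ, 1 ≤ m → ∀ x : Fin m → E d,
      ∃ y ∈ K, (∀ j, y ≠ x j) ∧ ∑ j, ‖y - x j‖ ^ (-α) ≤ C * m := by
  obtain ⟨ν, hν, hνK, hen⟩ := hcap
  set U : E d → ℝ≥0∞ := fun x => ∫⁻ y, (edist x y) ^ (-α) ∂ν with hU
  have hUm : Measurable U := kernel_meas.lintegral_prod_right'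
  have hUfin : ∀ᵐ x ∂ν, U x < ⊤ := ae_lt_top hUm hen.ne
  have hKm : MeasurableSet K := hK.isClosed.measurableSet
  obtain ⟨n, hn⟩ : ∃ n : ℕ, 0 < ν (K ∩ {x | U x ≤ n}) := by
    by_contra hcon
    push Not at hcon
    have h1 : ν (⋃ n : ℕ, (K ∩ {x | U x ≤ n})) = 0 := by
      rw [measure_iUnion_null_iff]
      exact fun n => le_antisymm (hcon n) bot_le
    have h2 : ∀ᵐ x ∂ν, x ∈ ⋃ n : ℕ, (K ∩ {x | U x ≤ n}) := by
      have hKae : ∀ᵐ z ∂ν, z ∈ K := hνK
      filter_upwards [hUfin, hKae] with x hx hxK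
      obtain ⟨n, hn⟩ := ENNReal.exists_nat_gt hx.ne
      exact mem_iUnion.2 ⟨n, hxK, hn.le⟩
    have h3 : ν univ = 0 := by
      have h4 : ν (⋃ n : ℕ, (K ∩ {x | U x ≤ n}))ᶜ = 0 := h2
      have := measure_union_le (μ := ν) (⋃ n : ℕ, (K ∩ {x | U x ≤ n}))
        (⋃ n : ℕ, (K ∩ {x | U x ≤ n}))ᶜ
      rw [union_compl_self, h1, h4, add_zero] at this
      exact le_antisymm this bot_le
    rw [measure_univ] at h3
    exact one_ne_zero h3
  have hAm : MeasurableSet (K ∩ {x | U x ≤ n}) :=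
    hKm.inter (measurableSet_le hUm measurable_const)
  obtain ⟨K', hK'A, hK'c, hK'pos⟩ := hAm.exists_lt_isCompact hn
  have hK'ne : K'.Nonempty := by
    by_contra h
    rw [not_nonempty_iff_eq_empty] at h
    rw [h, measure_empty] at hK'pos
    exact lt_irrefl _ hK'pos
  have hK'm : MeasurableSet K' := hK'c.isClosed.measurableSet
  -- potential of the restriction
  have hpot : ∀ x : E d, ∫⁻ y in K', (edist x y) ^ (-α) ∂ν ≤ (2:ℝ≥0∞) ^ α * n :=
    fun x => pot_bound hα hK'c hK'ne (fun x' hx' => (hK'A hx').2) x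
  set b : ℝ≥0∞ := (2:ℝ≥0∞) ^ α * n + 1 with hb
  have hbtop : b ≠ ⊤ := by
    refine ENNReal.add_ne_top.2 ⟨ENNReal.mul_ne_top
      (ENNReal.rpow_ne_top_of_nonneg hα.le (by norm_num)) (ENNReal.natCast_ne_top n),
      ENNReal.one_ne_top⟩
  set c : ℝ≥0∞ := b / ν K' with hc
  have hνK' : ν K' ≠ ⊤ := measure_ne_top _ _
  have hctop : c ≠ ⊤ := ENNReal.div_ne_top hbtop hK'pos.ne'
  refine ⟨max 1 c.toReal, le_max_left _ _, fun m hm x => ?_⟩
  have hex : ∃ y ∈ K', ∑ j, (edist y (x j)) ^ (-α) ≤ c * m := by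
    by_contra hcon
    push Not at hcon
    have h1 : c * m * ν K' ≤ ∫⁻ y in K', ∑ j, (edist y (x j)) ^ (-α) ∂ν := by
      rw [← setLIntegral_const]
      exact setLIntegral_mono' hK'm fun y hy => (hcon y hy).le
    have h2 : ∫⁻ y in K', ∑ j, (edist y (x j)) ^ (-α) ∂ν ≤ m * ((2:ℝ≥0∞) ^ α * n) := by
      rw [lintegral_finsetSum]
      · calc ∑ j, ∫⁻ y in K', (edist y (x j)) ^ (-α) ∂ν ≤ ∑ _j : Fin m, (2:ℝ≥0∞) ^ α * n := by
              refine Finset.sum_le_sum fun j _ => ?_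
              have := hpot (x j)
              simpa only [edist_comm] using this
          _ = _ := by simp
      · intro j _
        exact meas_right (x j)
    have h3 : c * m * ν K' = m * b := by
      rw [hc, mul_comm (b / ν K'), mul_assoc, ENNReal.div_mul_cancel hK'pos.ne' hνK']
    rw [h3] at h1
    have h4 := h1.trans h2
    have hm0 : (m:ℝ≥0∞) ≠ 0 := by
      have : m ≠ 0 := by omega
      exact_mod_cast this
    rw [ENNReal.mul_le_mul_iff_right hm0 (ENNReal.natCast_ne_top m)] at h4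
    have h5 : (2:ℝ≥0∞) ^ α * n ≠ ⊤ := ne_top_of_le_ne_top hbtop le_self_add
    have h6 : (2:ℝ≥0∞) ^ α * n < b := ENNReal.lt_add_right h5 one_ne_zero
    exact absurd h4 (not_le.2 h6)
  obtain ⟨y, hy, hsum⟩ := hex
  have hterm : ∀ j, (edist y (x j)) ^ (-α) ≠ ⊤ := by
    intro j
    have h1 : (edist y (x j)) ^ (-α) ≤ ∑ j, (edist y (x j)) ^ (-α) :=
      Finset.single_le_sum (f := fun j => (edist y (x j)) ^ (-α)) (fun _ _ => zero_le)
        (Finset.mem_univ j)
    exact ne_top_of_le_ne_top (ENNReal.mul_ne_top hctop (ENNReal.natCast_ne_top m)) (h1.trans hsum)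
  have hne : ∀ j, y ≠ x j := by
    intro j h
    apply hterm j
    rw [h, edist_self, ENNReal.zero_rpow_of_neg (by linarith)]
  refine ⟨y, (hK'A hy).1, hne, ?_⟩
  have h1 : ∀ j, ((edist y (x j)) ^ (-α)).toReal = ‖y - x j‖ ^ (-α) := by
    intro j
    rw [← ENNReal.toReal_rpow, edist_dist, ENNReal.toReal_ofReal dist_nonneg, dist_eq_norm]
  have h2 : ∑ j, ‖y - x j‖ ^ (-α) = (∑ j, (edist y (x j)) ^ (-α)).toReal := by
    rw [ENNReal.toReal_sum fun j _ => hterm j]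
    exact Finset.sum_congr rfl fun j _ => (h1 j).symm
  rw [h2]
  have h3 := ENNReal.toReal_mono (ENNReal.mul_ne_top hctop (ENNReal.natCast_ne_top m)) hsum
  rw [ENNReal.toReal_mul, ENNReal.toReal_natCast] at h3
  refine h3.trans ?_
  gcongr
  exact le_max_right _ _

/-- the potential changes by at most one on a ball of polynomial radius -/
theorem shift {α : ℝ} (hα : 0 < α) {a : ℕ} (ha : α ≤ a) (ha1 : 1 ≤ a) {d m : ℕ} {x : Fin m → E d}
    {y z : E d} (hy : ∀ j, y ≠ x j) {B : ℝ} (hB : 1 ≤ B) (hV : ∑ j, ‖y - x j‖ ^ (-α) ≤ B)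
    (hz : ‖z - y‖ ≤ 1 / (2 * a * (B + 1)) * B ^ (-(1 / α))) :
    Real.exp (-1) * expPot α x y ≤ expPot α x z := by
  set ρ : ℝ := 1 / (2 * a * (B + 1)) with hρ
  have ha0 : (1:ℝ) ≤ a := by exact_mod_cast ha1
  have hρ0 : 0 < ρ := by positivity
  have hρa : (a:ℝ) * ρ = 1 / (2 * (B + 1)) := by
    rw [hρ]; field_simp
  have hρ1 : ρ ≤ 1 / 4 := by
    rw [hρ]
    apply one_div_le_one_div_of_le (by norm_num)
    nlinarith
  have hterm : ∀ j, ‖y - x j‖ ^ (-α) ≤ B := fun j =>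
    (Finset.single_le_sum (f := fun j => ‖y - x j‖ ^ (-α)) (fun _ _ => by positivity)
      (Finset.mem_univ j)).trans hV
  have hs0 : ∀ j, 0 < ‖y - x j‖ := fun j => norm_pos_iff.2 (sub_ne_zero.2 (hy j))
  have hs : ∀ j, B ^ (-(1 / α)) ≤ ‖y - x j‖ := by
    intro j
    have h1 := hterm j
    have h2 : (B ^ (-(1 / α))) ≤ (‖y - x j‖ ^ (-α)) ^ (-(1 / α)) :=
      Real.rpow_le_rpow_of_nonpos (Real.rpow_pos_of_pos (hs0 j) _) h1 (by
        have : 0 < 1 / α := by positivity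
        linarith)
    rw [← Real.rpow_mul (hs0 j).le] at h2
    have h3 : -α * -(1 / α) = 1 := by field_simp
    rwa [h3, Real.rpow_one] at h2
  have hdist : ∀ j, ‖y - x j‖ * (1 - ρ) ≤ ‖z - x j‖ := by
    intro j
    have h1 : ‖z - y‖ ≤ ρ * ‖y - x j‖ := hz.trans (by gcongr; exact hs j)
    have h2 : ‖y - x j‖ ≤ ‖z - x j‖ + ‖z - y‖ := by
      have : y - x j = (z - x j) - (z - y) := by abel
      rw [this]
      exact norm_sub_le _ _
    linarith
  have hz0 : ∀ j, 0 < ‖z - x j‖ := fun j =>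
    (mul_pos (hs0 j) (by linarith)).trans_le (hdist j)
  have hzne : ∀ j, z ≠ x j := fun j h => by
    have := hz0 j
    rw [h, sub_self, norm_zero] at this
    exact lt_irrefl _ this
  have hfac : (1 - ρ) ^ (-α) ≤ 1 + 1 / (B + 1) := by
    have h1 : (1 - ρ) ^ (-α) ≤ (1 - ρ) ^ (-(a:ℝ)) :=
      Real.rpow_le_rpow_of_exponent_ge (by linarith) (by linarith) (by linarith)
    refine h1.trans ?_
    rw [Real.rpow_neg (by linarith), Real.rpow_natCast]
    have h2 : 1 - a * ρ ≤ (1 - ρ) ^ a := by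
      have := one_add_mul_le_pow (a := -ρ) (by linarith) a
      have e : (1:ℝ) + -ρ = 1 - ρ := by ring
      rw [e] at this
      linarith
    rw [hρa] at h2
    have hB1 : 0 < B + 1 := by linarith
    have h3 : (0:ℝ) < 1 - 1 / (2 * (B + 1)) := by
      have : 1 / (2 * (B + 1)) ≤ 1 / 4 := by
        apply one_div_le_one_div_of_le (by norm_num)
        linarith
      linarith
    calc ((1 - ρ) ^ a)⁻¹ ≤ (1 - 1 / (2 * (B + 1)))⁻¹ := inv_anti₀ h3 h2
      _ ≤ 1 + 1 / (B + 1) := by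
        rw [inv_le_comm₀ h3 (by positivity), inv_eq_one_div, div_le_iff₀ (by positivity)]
        have e1 : (1 - 1 / (2 * (B + 1))) * (1 + 1 / (B + 1)) =
            1 + 1 / (2 * (B + 1)) - 1 / (2 * (B + 1) ^ 2) := by
          field_simp
          ring
        rw [e1]
        have e2 : 1 / (2 * (B + 1) ^ 2) ≤ 1 / (2 * (B + 1)) := by
          apply one_div_le_one_div_of_le (by positivity)
          nlinarith
        linarith
  have hsum : ∑ j, ‖z - x j‖ ^ (-α) ≤ ∑ j, ‖y - x j‖ ^ (-α) + 1 := by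
    have h1 : ∀ j, ‖z - x j‖ ^ (-α) ≤ ‖y - x j‖ ^ (-α) * (1 + 1 / (B + 1)) := by
      intro j
      calc ‖z - x j‖ ^ (-α) ≤ (‖y - x j‖ * (1 - ρ)) ^ (-α) :=
            Real.rpow_le_rpow_of_nonpos (mul_pos (hs0 j) (by linarith)) (hdist j) (by linarith)
        _ = ‖y - x j‖ ^ (-α) * (1 - ρ) ^ (-α) := Real.mul_rpow (hs0 j).le (by linarith)
        _ ≤ _ := by gcongr
    calc ∑ j, ‖z - x j‖ ^ (-α) ≤ ∑ j, ‖y - x j‖ ^ (-α) * (1 + 1 / (B + 1)) :=
          Finset.sum_le_sum fun j _ => h1 j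
      _ = (∑ j, ‖y - x j‖ ^ (-α)) + (∑ j, ‖y - x j‖ ^ (-α)) * (1 / (B + 1)) := by
          rw [← Finset.sum_mul]; ring
      _ ≤ (∑ j, ‖y - x j‖ ^ (-α)) + 1 := by
          gcongr
          rw [mul_one_div, div_le_one (by linarith)]
          linarith
  unfold expPot
  rw [if_neg (fun ⟨j, hj⟩ => hy j hj), if_neg (fun ⟨j, hj⟩ => hzne j hj), ← Real.exp_add]
  apply Real.exp_le_exp.2
  linarith

/-- **Q1** -/
theorem exists_of_capacity {α : ℝ} (hα : 0 < α) {d : ℕ} {K : Set (E d)} (hK : IsCompact K)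
    (hcap : PositiveCapacity α K) : ∃ μ : Measure (E d), RieszBM α K μ ∧ IsDiscreteOn K μ := by
  obtain ⟨C, hC1, hlow⟩ := exists_low hα hK hcap
  have hne : K.Nonempty := by
    obtain ⟨y, hy, _⟩ := hlow 1 le_rfl (fun _ => 0)
    exact ⟨y, hy⟩
  obtain ⟨μ, hfin, hdisc, c, hc, T, hdens⟩ := exists_dens hK hne
  obtain ⟨a, ha⟩ := exists_nat_ge (max α 1)
  have haα : α ≤ a := (le_max_left _ _).trans ha
  have ha1 : 1 ≤ a := by
    have : (1:ℝ) ≤ a := (le_max_right _ _).trans ha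
    exact_mod_cast this
  have ha1R : (1:ℝ) ≤ a := by exact_mod_cast ha1
  obtain ⟨b, hb⟩ := exists_nat_ge (1 / α)
  set D : ℝ := 4 * a * C ^ (b + 1) with hD
  have hD1 : 1 ≤ D := by
    have h1 : 1 ≤ C ^ (b + 1) := one_le_pow₀ hC1
    nlinarith
  -- the radius
  have hrad : ∀ n : ℕ, 1 ≤ n → ∃ r : ℝ, 0 < r ∧ r ≤ 1 ∧
      r = 1 / (2 * a * (C * n + 1)) * (C * n) ^ (-(1 / α)) ∧ 1 / (D * (n:ℝ) ^ (b + 1)) ≤ r := by
    intro n hn
    have hn1 : (1:ℝ) ≤ n := by exact_mod_cast hn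
    have hB : 1 ≤ C * n := by nlinarith
    have hB0 : 0 < C * n := by linarith
    refine ⟨_, by positivity, ?_, rfl, ?_⟩
    · have h1 : (C * n) ^ (-(1 / α)) ≤ 1 :=
        Real.rpow_le_one_of_one_le_of_nonpos hB (by
          have : 0 < 1 / α := by positivity
          linarith)
      have h2 : 1 / (2 * a * (C * n + 1)) ≤ 1 := by
        rw [div_le_one (by positivity)]
        nlinarith
      calc _ ≤ 1 * (1:ℝ) := by gcongr
        _ = 1 := one_mul 1
    · have h1 : (C * n) ^ (-(b:ℝ)) ≤ (C * n) ^ (-(1 / α)) :=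
        Real.rpow_le_rpow_of_exponent_le hB (by linarith)
      rw [Real.rpow_neg hB0.le, Real.rpow_natCast] at h1
      have h2 : 1 / (4 * a * (C * n)) ≤ 1 / (2 * a * (C * n + 1)) := by
        apply one_div_le_one_div_of_le (by positivity)
        nlinarith
      calc 1 / (D * (n:ℝ) ^ (b + 1)) = 1 / (4 * a * (C * n)) * ((C * n) ^ b)⁻¹ := by
            rw [hD, one_div, one_div, ← mul_inv]
            congr 1
            ring
        _ ≤ _ := by gcongr
  refine ⟨μ, ⟨hfin, ?_, fun n => (Real.exp 1 / c * D ^ T) * ((n:ℝ) + 1) ^ ((b + 1) * T),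
    fun n => by positivity, tendsto_poly_root (by positivity) _, ?_⟩, hdisc⟩
  · obtain ⟨S, _, hS, hS0⟩ := hdisc
    exact measure_mono_null (compl_subset_compl.2 hS) hS0
  intro n hn x hx y hy
  have hn1 : (1:ℝ) ≤ n := by exact_mod_cast (by omega : 1 ≤ n)
  obtain ⟨r, hr0, hr1, hr, hrlow⟩ := hrad n (by omega)
  have hB : 1 ≤ C * n := by nlinarith
  -- low points are good
  have good : ∀ y ∈ K, (∀ j, y ≠ x j) → ∑ j, ‖y - x j‖ ^ (-α) ≤ C * n →
      expPot α x y ≤ (Real.exp 1 / c * D ^ T) * ((n:ℝ) + 1) ^ ((b + 1) * T) *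
        ∫ z, expPot α x z ∂μ := by
    intro y hy hyx hV
    have h1 : ∀ z ∈ Metric.closedBall y r, Real.exp (-1) * expPot α x y ≤ expPot α x z := by
      intro z hz
      rw [Metric.mem_closedBall, dist_eq_norm] at hz
      exact shift hα haα ha1 hyx hB hV (hz.trans hr.le)
    have h2 : Real.exp (-1) * expPot α x y * μ.real (Metric.closedBall y r) ≤
        ∫ z, expPot α x z ∂μ := by
      calc Real.exp (-1) * expPot α x y * μ.real (Metric.closedBall y r) =
            ∫ _z in Metric.closedBall y r, Real.exp (-1) * expPot α x y ∂μ := by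
            rw [setIntegral_const, smul_eq_mul, mul_comm]
        _ ≤ ∫ z in Metric.closedBall y r, expPot α x z ∂μ := by
            refine setIntegral_mono_on (integrable_const _).integrableOn
              (expPot_int hα x μ).integrableOn Metric.isClosed_closedBall.measurableSet h1
        _ ≤ _ := setIntegral_le_integral (expPot_int hα x μ)
            (Eventually.of_forall fun z => expPot_nonneg α x z)
    have h3 := hdens y hy r hr0 hr1
    have h4 : c * (1 / (D * (n:ℝ) ^ (b + 1))) ^ T ≤ μ.real (Metric.closedBall y r) := by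
      refine le_trans ?_ h3
      gcongr
    have hpos : 0 < c * (1 / (D * (n:ℝ) ^ (b + 1))) ^ T := by positivity
    have h5 : Real.exp (-1) * expPot α x y * (c * (1 / (D * (n:ℝ) ^ (b + 1))) ^ T) ≤
        ∫ z, expPot α x z ∂μ := by
      refine le_trans ?_ h2
      apply mul_le_mul_of_nonneg_left h4
      have := expPot_nonneg α x y
      positivity
    have hI : 0 ≤ ∫ z, expPot α x z ∂μ := integral_nonneg fun z => expPot_nonneg α x z
    have h6 : expPot α x y ≤ (Real.exp 1 / c * D ^ T) * (n:ℝ) ^ ((b + 1) * T) *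
        ∫ z, expPot α x z ∂μ := by
      have e1 : (Real.exp 1 / c * D ^ T) * (n:ℝ) ^ ((b + 1) * T) *
          (Real.exp (-1) * expPot α x y * (c * (1 / (D * (n:ℝ) ^ (b + 1))) ^ T)) = expPot α x y := by
        have e2 : Real.exp 1 * Real.exp (-1) = 1 := by rw [← Real.exp_add]; simp
        have e3 : (D ^ T * (n:ℝ) ^ ((b + 1) * T)) * (1 / (D * (n:ℝ) ^ (b + 1))) ^ T = 1 := by
          rw [pow_mul, ← mul_pow, ← mul_pow, mul_one_div, div_self (by positivity), one_pow]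
        calc _ = (Real.exp 1 * Real.exp (-1)) *
              ((D ^ T * (n:ℝ) ^ ((b + 1) * T)) * (1 / (D * (n:ℝ) ^ (b + 1))) ^ T) *
              expPot α x y * (c / c) := by ring
          _ = _ := by rw [e2, e3, div_self hc.ne']; ring
      calc expPot α x y = (Real.exp 1 / c * D ^ T) * (n:ℝ) ^ ((b + 1) * T) *
          (Real.exp (-1) * expPot α x y * (c * (1 / (D * (n:ℝ) ^ (b + 1))) ^ T)) := e1.symm
        _ ≤ _ := by gcongr
    refine h6.trans ?_
    gcongr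
    linarith
  by_cases hyx : ∃ j, y = x j
  · have h0 : expPot α x y = 0 := by unfold expPot; rw [if_pos hyx]
    rw [h0]
    have hI : 0 ≤ ∫ z, expPot α x z ∂μ := integral_nonneg fun z => expPot_nonneg α x z
    positivity
  · push Not at hyx
    by_cases hV : ∑ j, ‖y - x j‖ ^ (-α) ≤ C * n
    · exact good y hy hyx hV
    · push Not at hV
      obtain ⟨y₁, hy₁K, hy₁x, hy₁V⟩ := hlow (n - 1) (by omega) x
      have h1 : ((n - 1 : ℕ) : ℝ) ≤ n := by exact_mod_cast (by omega : n - 1 ≤ n)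
      have hV1 : ∑ j, ‖y₁ - x j‖ ^ (-α) ≤ C * n :=
        hy₁V.trans (by apply mul_le_mul_of_nonneg_left h1; linarith)
      refine le_trans ?_ (good y₁ hy₁K hy₁x hV1)
      unfold expPot
      rw [if_neg (fun ⟨j, hj⟩ => hyx j hj), if_neg (fun ⟨j, hj⟩ => hy₁x j hj)]
      apply Real.exp_le_exp.2
      linarith

end Pool.Agent.R243.BM
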